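import Pool.Agent.MP_0f15b2_an.Rd.Space

/-!
Equal ranges do not determine Pettis differentiability, even when both variations are complete
Radon measures on compact Hausdorff spaces.
-/

set_option autoImplicit false

open Filter Topology Set MeasureTheory
open scoped ENNReal

noncomputable section

namespace Pool.Agent.Results.MP_0f15b2_an.RadonRange

/-- The range of a vector measure. -/
def vrange {Ω X : Type} [MeasurableSpace Ω] [NormedAddCommGroup X] (ν : VectorMeasure Ω X) :
    Set X :=
  {x | ∃ E : Set Ω, MeasurableSet E ∧ ν E = x}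

/-- Perfect measures, as in the problem file. -/
def IsPerfect {Ω : Type} [MeasurableSpace Ω] (μ : Measure Ω) : Prop :=
  ∀ g : Ω → ℝ, Measurable g → ∀ E : Set Ω, MeasurableSet E → 0 < μ E →
    ∃ K : Set ℝ, IsCompact K ∧ K ⊆ g '' E ∧ 0 < μ (g ⁻¹' K)

/-- Pettis differentiability with respect to the variation. -/
def PettisDiff {Ω X : Type} [MeasurableSpace Ω] [NormedAddCommGroup X] [NormedSpace ℝ X]
    (ν : VectorMeasure Ω X) : Prop :=
  ∃ f : Ω → X, ∀ φ : X →L[ℝ] ℝ, Integrable (fun ω => φ (f ω)) ν.variation ∧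
    ∀ E : Set Ω, MeasurableSet E → φ (ν E) = ∫ ω in E, φ (f ω) ∂ν.variation

open Pool.Agent.MP_0f15b2_an Pool.Agent.MP_0f15b2_an.Rd

theorem result :
    ∃ (X : Type) (_ : NormedAddCommGroup X) (_ : NormedSpace ℝ X) (_ : CompleteSpace X)
      (Ω₁ Ω₂ : Type) (_ : MeasurableSpace Ω₁) (_ : MeasurableSpace Ω₂)
      (ν₁ : VectorMeasure Ω₁ X) (ν₂ : VectorMeasure Ω₂ X),
      IsFiniteMeasure ν₁.variation ∧ IsFiniteMeasure ν₂.variation ∧
      ν₁.variation.IsComplete ∧ ν₂.variation.IsComplete ∧
      IsPerfect ν₁.variation ∧ IsPerfect ν₂.variation ∧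
      vrange ν₁ = vrange ν₂ ∧ PettisDiff ν₁ ∧ ¬ PettisDiff ν₂ ∧
      ∃ (_ : TopologicalSpace Ω₁) (_ : TopologicalSpace Ω₂),
        CompactSpace Ω₁ ∧ T2Space Ω₁ ∧ OpensMeasurableSpace Ω₁ ∧ ν₁.variation.InnerRegular ∧
        CompactSpace Ω₂ ∧ TopologicalSpace.MetrizableSpace Ω₂ ∧ OpensMeasurableSpace Ω₂ ∧
          ν₂.variation.InnerRegular := by
  have h1 : IsFiniteMeasure muB.completion := ⟨measure_lt_top muB univ⟩
  have h2 : IsFiniteMeasure muS.completion := ⟨measure_lt_top muS univ⟩
  have q2 : MeasurePreserving (Prod.fst : Sm → Cn) muS lam := measurePreserving_fst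
  have q0 : MeasurePreserving (Prod.fst : Bg → Sm) muB muS := measurePreserving_fst
  have hp1 := mp_completion muB (q2.comp q0)
  have hp2 := mp_completion muS q2
  have e1 := variation_eq_of (X := Xr) muB.completion _ (norm_nuR muB.completion hp1)
  have e2 := variation_eq_of (X := Xr) muS.completion _ (norm_nuR muS.completion hp2)
  let t1 : TopologicalSpace (NullMeasurableSpace Bg muB) := inferInstanceAs (TopologicalSpace Bg)
  let t2 : TopologicalSpace (NullMeasurableSpace Sm muS) := inferInstanceAs (TopologicalSpace Sm)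
  have a1 : T2Space (NullMeasurableSpace Bg muB) := inferInstanceAs (T2Space Bg)
  have a2 : T2Space (NullMeasurableSpace Sm muS) := inferInstanceAs (T2Space Sm)
  have o1 : OpensMeasurableSpace (NullMeasurableSpace Bg muB) :=
    ⟨fun E hE => MeasurableSet.nullMeasurableSet (α := Bg) (μ := muB)
      (OpensMeasurableSpace.borel_le (α := Bg) E hE)⟩
  have o2 : OpensMeasurableSpace (NullMeasurableSpace Sm muS) :=
    ⟨fun E hE => MeasurableSet.nullMeasurableSet (α := Sm) (μ := muS)
      (OpensMeasurableSpace.borel_le (α := Sm) E hE)⟩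
  have r1 : muB.completion.InnerRegular := innerRegular_completion muB
  have r2 : muS.completion.InnerRegular := innerRegular_completion muS
  refine ⟨Xr, inferInstance, inferInstance, inferInstance, NullMeasurableSpace Bg muB,
    NullMeasurableSpace Sm muS, inferInstance, inferInstance,
    nuR muB.completion hp1, nuR muS.completion hp2, e1.symm ▸ h1, e2.symm ▸ h2,
    e1.symm ▸ inferInstance, e2.symm ▸ inferInstance,
    e1.symm ▸ perfect_of_radon muB.completion, e2.symm ▸ perfect_of_radon muS.completion,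
    ?_, ?_, ?_, t1, t2, inferInstanceAs (CompactSpace Bg), a1, o1, e1.symm ▸ r1,
    inferInstanceAs (CompactSpace Sm), inferInstanceAs (TopologicalSpace.MetrizableSpace Sm), o2,
    e2.symm ▸ r2⟩
  · ext x
    constructor
    · rintro ⟨E, hE, rfl⟩
      obtain ⟨A, hA, h⟩ := exists_small muB.completion hp1 (E := E)
      exact ⟨A, hA.nullMeasurableSet, (nuR_eq _ _ hp1 hp2 hE hA.nullMeasurableSet h).symm⟩
    · rintro ⟨E, hE, rfl⟩
      obtain ⟨A, hA, h⟩ := exists_small muS.completion hp2 (E := E)
      have hA' : MeasurableSet (α := NullMeasurableSpace Bg muB) (Prod.fst ⁻¹' A) :=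
        (q0.measurable hA).nullMeasurableSet
      refine ⟨_, hA', nuR_eq _ _ hp1 hp2 hA' hE fun s => Eq.trans ?_ (h s).symm⟩
      exact q0.measure_preimage
        (hA.inter (q2.measurable (measurableSet_cyl s))).nullMeasurableSet
  · unfold PettisDiff
    rw [e1]
    refine pettis_of muB.completion hp1 Prod.snd fun e => ?_
    have : muB (univ ×ˢ range e) = 0 := by
      rw [muB, Measure.prod_prod, null_range, mul_zero]
    exact measure_mono_null (μ := muB) (t := univ ×ˢ range e) (fun ω hω => ⟨trivial, hω⟩) this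
  · obtain ⟨Γ, hΓ, hinj⟩ := exists_graph
    unfold PettisDiff
    rw [e2]
    exact not_pettis_of muS.completion hp2 hΓ hinj

end Pool.Agent.Results.MP_0f15b2_an.RadonRange
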